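import Pool.Agent.Helper20.HP.KKDefs

/-!
# Kaluza-Klein formula in normal form
-/

open Filter Metric Module Set
open scoped Topology ContDiff RealInnerProductSpace Manifold

set_option maxSynthPendingDepth 3

namespace Pool.Agent.Helper76.HP
open Pool.Agent.Helper20.PC Pool.Agent.Helper20.HP

section
variable {B W : Type*} [NormedAddCommGroup B] [NormedSpace ℝ B]
  [NormedAddCommGroup W] [NormedSpace ℝ W]
  {h : B → B →L[ℝ] B →L[ℝ] ℝ} {N : B → W →L[ℝ] W →L[ℝ] ℝ} {Λ : B × W → B × W →L[ℝ] W}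
  {z : B × W}

lemma nm_apply (z' : B × W) (u v : B × W) :
    normalMetric h N Λ z' u v = h z'.1 u.1 v.1 + N z'.1 (Λ z' u) (Λ z' v) := by
  simp [normalMetric]

lemma dN_eq {x : B} (hN : DifferentiableAt ℝ N x) (ζ : B) (a b : W) :
    dN N x ζ a b = fderiv ℝ N x ζ a b := by
  have h1 := ((hN.hasFDerivAt.clm_apply (hasFDerivAt_const a x)).clm_apply
    (hasFDerivAt_const b x)).fderiv
  rw [dN, h1]
  simp

lemma ev_diff {E F : Type*} [NormedAddCommGroup E] [NormedSpace ℝ E] [NormedAddCommGroup F]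
    [NormedSpace ℝ F] {f : E → F} {x : E} (hf : ContDiffAt ℝ 2 f x) :
    ∀ᶠ x' in 𝓝 x, DifferentiableAt ℝ f x' :=
  (hf.eventually (by norm_num)).mono (fun _ hx => hx.differentiableAt (by norm_num))

lemma diff_fderiv {E F : Type*} [NormedAddCommGroup E] [NormedSpace ℝ E] [NormedAddCommGroup F]
    [NormedSpace ℝ F] {f : E → F} {x : E} (hf : ContDiffAt ℝ 2 f x) :
    DifferentiableAt ℝ (fderiv ℝ f) x :=
  (hf.fderiv_right (m := 1) (by norm_num)).differentiableAt (by norm_num)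

lemma ddN_eq {x : B} (hN : ContDiffAt ℝ 2 N x) (ξ ζ : B) (a b : W) :
    ddN N x ξ ζ a b = fderiv ℝ (fderiv ℝ N) x ξ ζ a b := by
  have e : (fun x' => dN N x' ζ a b) =ᶠ[𝓝 x] (fun x' => fderiv ℝ N x' ζ a b) :=
    (ev_diff hN).mono (fun x' hx' => dN_eq hx' ζ a b)
  have h1 := ((((diff_fderiv hN).hasFDerivAt.clm_apply (hasFDerivAt_const ζ x)).clm_apply
    (hasFDerivAt_const a x)).clm_apply (hasFDerivAt_const b x)).fderiv
  rw [ddN, e.fderiv_eq (𝕜 := ℝ), h1]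
  simp

/-- first derivative of the metric. -/
lemma dG_nm {z' : B × W} (hh : DifferentiableAt ℝ h z'.1) (hN : DifferentiableAt ℝ N z'.1)
    (hΛ : DifferentiableAt ℝ Λ z') (t u v : B × W) :
    dG (normalMetric h N Λ) z' t u v = dG h z'.1 t.1 u.1 v.1
      + fderiv ℝ N z'.1 t.1 (Λ z' u) (Λ z' v) + N z'.1 (fderiv ℝ Λ z' t u) (Λ z' v)
      + N z'.1 (Λ z' u) (fderiv ℝ Λ z' t v) := by
  have e : (fun w : B × W => normalMetric h N Λ w u v)
      = fun w => h w.1 u.1 v.1 + N w.1 (Λ w u) (Λ w v) := by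
    funext w; exact nm_apply w u v
  have f1 : HasFDerivAt (fun w : B × W => w.1) (ContinuousLinearMap.fst ℝ B W) z' := hasFDerivAt_fst
  have g1 : HasFDerivAt (fun x => h x u.1 v.1) (fderiv ℝ (fun x => h x u.1 v.1) z'.1) z'.1 :=
    ((hh.clm_apply (differentiableAt_const _)).clm_apply (differentiableAt_const _)).hasFDerivAt
  have g2 : HasFDerivAt (fun w : B × W => h w.1 u.1 v.1)
      ((fderiv ℝ (fun x => h x u.1 v.1) z'.1).comp (ContinuousLinearMap.fst ℝ B W)) z' :=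
    HasFDerivAt.comp z' g1 f1
  have n1 : HasFDerivAt (fun w : B × W => N w.1)
      ((fderiv ℝ N z'.1).comp (ContinuousLinearMap.fst ℝ B W)) z' :=
    HasFDerivAt.comp z' hN.hasFDerivAt f1
  have l1 := hΛ.hasFDerivAt.clm_apply (hasFDerivAt_const u z')
  have l2 := hΛ.hasFDerivAt.clm_apply (hasFDerivAt_const v z')
  have tot : HasFDerivAt (fun w : B × W => h w.1 u.1 v.1 + N w.1 (Λ w u) (Λ w v)) _ z' :=
    g2.add ((n1.clm_apply l1).clm_apply l2)
  rw [dG, e, tot.fderiv]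
  simp [dG]
  ring

/-- second derivative of the metric. -/
lemma ddG_nm (hh : ContDiffAt ℝ 2 h z.1) (hN : ContDiffAt ℝ 2 N z.1)
    (hΛ : ContDiffAt ℝ 2 Λ z) (s t u v : B × W) :
    ddG (normalMetric h N Λ) z s t u v = ddG h z.1 s.1 t.1 u.1 v.1
      + (fderiv ℝ (fderiv ℝ N) z.1 s.1 t.1 (Λ z u) (Λ z v)
        + fderiv ℝ N z.1 t.1 (fderiv ℝ Λ z s u) (Λ z v)
        + fderiv ℝ N z.1 t.1 (Λ z u) (fderiv ℝ Λ z s v))
      + (fderiv ℝ N z.1 s.1 (fderiv ℝ Λ z t u) (Λ z v)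
        + N z.1 (fderiv ℝ (fderiv ℝ Λ) z s t u) (Λ z v)
        + N z.1 (fderiv ℝ Λ z t u) (fderiv ℝ Λ z s v))
      + (fderiv ℝ N z.1 s.1 (Λ z u) (fderiv ℝ Λ z t v)
        + N z.1 (fderiv ℝ Λ z s u) (fderiv ℝ Λ z t v)
        + N z.1 (Λ z u) (fderiv ℝ (fderiv ℝ Λ) z s t v)) := by
  have cf : Tendsto (fun w : B × W => w.1) (𝓝 z) (𝓝 z.1) := continuous_fst.tendsto z
  have e : (fun w : B × W => dG (normalMetric h N Λ) w t u v) =ᶠ[𝓝 z] (fun w => dG h w.1 t.1 u.1 v.1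
      + fderiv ℝ N w.1 t.1 (Λ w u) (Λ w v) + N w.1 (fderiv ℝ Λ w t u) (Λ w v)
      + N w.1 (Λ w u) (fderiv ℝ Λ w t v)) := by
    filter_upwards [cf.eventually (ev_diff hh), cf.eventually (ev_diff hN), ev_diff hΛ] with w a b c
    exact dG_nm a b c t u v
  have f1 : HasFDerivAt (fun w : B × W => w.1) (ContinuousLinearMap.fst ℝ B W) z := hasFDerivAt_fst
  have g1 := hasFDerivAt_dG hh t.1 u.1 v.1
  have g2 : HasFDerivAt (fun w : B × W => dG h w.1 t.1 u.1 v.1)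
      (((fderiv ℝ (fderiv ℝ (fun z' => h z' u.1 v.1)) z.1).flip t.1).comp
        (ContinuousLinearMap.fst ℝ B W)) z :=
    HasFDerivAt.comp z g1 f1
  have n1 : HasFDerivAt (fun w : B × W => N w.1)
      ((fderiv ℝ N z.1).comp (ContinuousLinearMap.fst ℝ B W)) z :=
    HasFDerivAt.comp z (hN.differentiableAt (by norm_num)).hasFDerivAt f1
  have n2 : HasFDerivAt (fun w : B × W => fderiv ℝ N w.1)
      ((fderiv ℝ (fderiv ℝ N) z.1).comp (ContinuousLinearMap.fst ℝ B W)) z :=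
    HasFDerivAt.comp z (diff_fderiv hN).hasFDerivAt f1
  have n3 := n2.clm_apply (hasFDerivAt_const t.1 z)
  have lz := (hΛ.differentiableAt (by norm_num)).hasFDerivAt
  have l1 := lz.clm_apply (hasFDerivAt_const u z)
  have l2 := lz.clm_apply (hasFDerivAt_const v z)
  have m0 := (diff_fderiv hΛ).hasFDerivAt.clm_apply (hasFDerivAt_const t z)
  have m1 := m0.clm_apply (hasFDerivAt_const u z)
  have m2 := m0.clm_apply (hasFDerivAt_const v z)
  have tot : HasFDerivAt (fun w : B × W => dG h w.1 t.1 u.1 v.1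
      + fderiv ℝ N w.1 t.1 (Λ w u) (Λ w v) + N w.1 (fderiv ℝ Λ w t u) (Λ w v)
      + N w.1 (Λ w u) (fderiv ℝ Λ w t v)) _ z :=
    ((g2.add ((n3.clm_apply l1).clm_apply l2)).add ((n1.clm_apply m1).clm_apply l2)).add
    ((n1.clm_apply l1).clm_apply m2)
  rw [ddG, e.fderiv_eq (𝕜 := ℝ), tot.fderiv, ddG_eq hh]
  simp
  ring

lemma fderiv_Λ (hΛ : ContDiffAt ℝ 2 Λ z) (s t w : B × W) :
    fderiv ℝ (fun z' => fderiv ℝ Λ z' t w) z s = fderiv ℝ (fderiv ℝ Λ) z s t w := by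
  have h1 := (((diff_fderiv hΛ).hasFDerivAt.clm_apply (hasFDerivAt_const t z)).clm_apply
    (hasFDerivAt_const w z)).fderiv
  rw [h1]
  simp

lemma D2_swap (hΛ : ContDiffAt ℝ 2 Λ z) (s t : B × W) :
    fderiv ℝ (fderiv ℝ Λ) z s t = fderiv ℝ (fderiv ℝ Λ) z t s :=
  (hΛ.isSymmSndFDerivAt (by simp)) s t

lemma D_anti (hΛ1 : ∀ u : B × W, fderiv ℝ Λ z u u = 0) (u v : B × W) :
    fderiv ℝ Λ z v u = - fderiv ℝ Λ z u v := by
  have h1 := hΛ1 (u + v)
  simp only [map_add, _root_.add_apply, hΛ1, zero_add, add_zero] at h1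
  exact eq_neg_of_add_eq_zero_left h1

lemma contDiffAt_of_apply {P F₁ F₂ : Type*} [NormedAddCommGroup P] [NormedSpace ℝ P]
    [NormedAddCommGroup F₁] [NormedSpace ℝ F₁] [NormedAddCommGroup F₂] [NormedSpace ℝ F₂]
    [FiniteDimensional ℝ F₁] {f : P → F₁ →L[ℝ] F₂} {x : P} {r : WithTop ℕ∞}
    (h : ∀ u, ContDiffAt ℝ r (fun x => f x u) x) : ContDiffAt ℝ r f x := by
  let d := finrank ℝ F₁
  have hd : d = finrank ℝ (Fin d → ℝ) := (finrank_fin_fun ℝ).symm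
  let e₁ := ContinuousLinearEquiv.ofFinrankEq hd
  let e₂ := (e₁.arrowCongr (1 : F₂ ≃L[ℝ] F₂)).trans (ContinuousLinearEquiv.piRing (Fin d))
  rw [← Function.id_comp f, ← e₂.symm_comp_self]
  exact e₂.symm.contDiff.contDiffAt.comp x (contDiffAt_pi.mpr fun i => h _)

variable [FiniteDimensional ℝ B] [FiniteDimensional ℝ W]

lemma contDiffAt_nm (hh : ContDiffAt ℝ 2 h z.1) (hN : ContDiffAt ℝ 2 N z.1)
    (hΛ : ContDiffAt ℝ 2 Λ z) : ContDiffAt ℝ 2 (normalMetric h N Λ) z := by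
  refine contDiffAt_of_apply (fun u => contDiffAt_of_apply (fun v => ?_))
  simp only [nm_apply]
  have a : ContDiffAt ℝ 2 (fun w : B × W => h w.1) z := hh.comp z contDiffAt_fst
  have b : ContDiffAt ℝ 2 (fun w : B × W => N w.1) z := hN.comp z contDiffAt_fst
  exact ((a.clm_apply contDiffAt_const).clm_apply contDiffAt_const).add
    ((b.clm_apply (hΛ.clm_apply contDiffAt_const)).clm_apply (hΛ.clm_apply contDiffAt_const))

/-- Christoffel symbols of the metric in normal form. -/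
lemma chr_nm (hh : MetAt h z.1) (hN : FormAt N z.1) (hΛ : ContDiffAt ℝ 2 Λ z)
    (hΛ0 : ∀ u : B × W, Λ z u = u.2) (hΛ1 : ∀ u : B × W, fderiv ℝ Λ z u u = 0)
    (u v w : B × W) :
    chr (normalMetric h N Λ) z u v w = chr h z.1 u.1 v.1 w.1
      + (1/2) * (dN N z.1 u.1 v.2 w.2 + dN N z.1 v.1 u.2 w.2 - dN N z.1 w.1 u.2 v.2)
      + (1/2) * N z.1 v.2 (cc Λ z u w) + (1/2) * N z.1 u.2 (cc Λ z v w) := by
  have dh := hh.smooth.differentiableAt (by norm_num : (2 : WithTop ℕ∞) ≠ 0)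
  have dn := hN.smooth.differentiableAt (by norm_num : (2 : WithTop ℕ∞) ≠ 0)
  have dl := hΛ.differentiableAt (by norm_num : (2 : WithTop ℕ∞) ≠ 0)
  have sN := hN.symm.self_of_nhds
  rw [chr_apply (contDiffAt_nm hh.smooth hN.smooth hΛ), dG_nm dh dn dl, dG_nm dh dn dl,
    dG_nm dh dn dl, chr_apply hh.smooth, dN_eq dn, dN_eq dn, dN_eq dn]
  simp only [hΛ0, cc, map_smul, smul_eq_mul]
  rw [D_anti hΛ1 u v, D_anti hΛ1 u w, D_anti hΛ1 v w]
  simp only [map_neg, _root_.neg_apply]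
  rw [sN (fderiv ℝ Λ z u v) w.2, sN (fderiv ℝ Λ z u w) v.2]
  ring

end

section
variable {F : Type*} [NormedAddCommGroup F] [NormedSpace ℝ F] [FiniteDimensional ℝ F]

lemma Gam_of_pos {G : F → F →L[ℝ] F →L[ℝ] ℝ} {z : F} (hp : ∀ u, u ≠ 0 → 0 < G z u u)
    {u v a : F} (ha : ∀ w, G z a w = chr G z u v w) : Gam G z u v = a := by
  have : chr G z u v = G z a := by ext w; exact (ha w).symm
  rw [Gam, this, (invertible_of_pos hp).inverse_apply_self]

end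

/-- Kaluza-Klein formula in normal form. -/
theorem num_normal {B W : Type*} [NormedAddCommGroup B] [NormedSpace ℝ B] [FiniteDimensional ℝ B]
    [NormedAddCommGroup W] [NormedSpace ℝ W] [FiniteDimensional ℝ W]
    {h : B → B →L[ℝ] B →L[ℝ] ℝ} {N : B → W →L[ℝ] W →L[ℝ] ℝ} {Λ : B × W → B × W →L[ℝ] W}
    {z : B × W} (hh : MetAt h z.1) (hN : FormAt N z.1) (hΛ : ContDiffAt ℝ 2 Λ z)
    (hΛ0 : ∀ u : B × W, Λ z u = u.2) (hΛ1 : ∀ u : B × W, fderiv ℝ Λ z u u = 0)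
    (u v : B × W) {th thu thv : B} {tv tvu tvv : W}
    (h1 : IsH h N Λ z u v th) (h2 : IsH h N Λ z u u thu) (h3 : IsH h N Λ z v v thv)
    (h4 : IsV N Λ z u v tv) (h5 : IsV N Λ z u u tvu) (h6 : IsV N Λ z v v tvv) :
    num (normalMetric h N Λ) z u v = num h z.1 u.1 v.1
      - (1/2) * (hessN h N z.1 u.1 u.1 v.2 v.2 + hessN h N z.1 v.1 v.1 u.2 u.2
          - 2 * hessN h N z.1 u.1 v.1 u.2 v.2)
      - (3/2) * dN N z.1 u.1 (cc Λ z u v) v.2 + (3/2) * dN N z.1 v.1 (cc Λ z u v) u.2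
      - (3/4) * N z.1 (cc Λ z u v) (cc Λ z u v)
      - N z.1 (ee h Λ z u v) v.2 - N z.1 (ee h Λ z v u) u.2
      + h z.1 th th - h z.1 thu thv + N z.1 tv tv - N z.1 tvu tvv := by
  have sh := hh.symm.self_of_nhds
  have sN := hN.symm.self_of_nhds
  have dn := hN.smooth.differentiableAt (by norm_num : (2 : WithTop ℕ∞) ≠ 0)
  have hpos : ∀ w : B × W, w ≠ 0 → 0 < normalMetric h N Λ z w w := by
    intro w hw
    rw [nm_apply, hΛ0]
    by_cases hw1 : w.1 = 0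
    · have hw2 : w.2 ≠ 0 := fun hw2 => hw (Prod.ext hw1 hw2)
      have := hN.pos.self_of_nhds _ hw2
      rw [hw1]
      simpa using this
    · have a1 := hh.pos.self_of_nhds _ hw1
      by_cases hw2 : w.2 = 0
      · rw [hw2]
        simpa using a1
      · have a2 := hN.pos.self_of_nhds _ hw2
        linarith
  -- the Christoffel symbols
  have key : ∀ (a b : B × W) (p : B) (q : W), IsH h N Λ z a b p → IsV N Λ z a b q →
      ∀ w, normalMetric h N Λ z (Gam h z.1 a.1 b.1 + p, q) w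
        = chr (normalMetric h N Λ) z a b w := by
    intro a b p q hp hq w
    have e1 := hp w.1
    have e2 := hq w.2
    have e3 := G_Gam hh a.1 b.1 w.1
    have hw : w = (w.1, 0) + (0, w.2) := by simp
    have e4 : cc Λ z a w = cc Λ z a (w.1, 0) + cc Λ z a (0, w.2) := by
      rw [cc, cc, cc, ← smul_add, ← map_add, ← hw]
    have e5 : cc Λ z b w = cc Λ z b (w.1, 0) + cc Λ z b (0, w.2) := by
      rw [cc, cc, cc, ← smul_add, ← map_add, ← hw]
    rw [chr_nm hh hN hΛ hΛ0 hΛ1, nm_apply, hΛ0, hΛ0, e4, e5]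
    simp only [map_add, _root_.add_apply]
    rw [e1, e2, e3]
    ring
  have k1 := key u v th tv h1 h4
  have k2 := key u u thu tvu h2 h5
  have k3 := key v v thv tvv h3 h6
  have g1 := Gam_of_pos hpos k1
  have g3 := Gam_of_pos hpos k3
  -- second derivatives
  have sdN : ∀ (ζ : B) (a b : W), fderiv ℝ N z.1 ζ a b = fderiv ℝ N z.1 ζ b a := by
    intro ζ a b
    have e : (fun x' => N x' a b) =ᶠ[𝓝 z.1] (fun x' => N x' b a) :=
      hN.symm.mono (fun x' hx' => hx' a b)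
    rw [← dN_eq dn, ← dN_eq dn, dN, dN, e.fderiv_eq (𝕜 := ℝ)]
  have D0 : fderiv ℝ Λ z v u = - fderiv ℝ Λ z u v := D_anti hΛ1 u v
  have r1 := D_anti hΛ1 v (Gam h z.1 u.1 u.1, 0)
  have r2 := D_anti hΛ1 u (Gam h z.1 v.1 v.1, 0)
  have s1 := h1 (Gam h z.1 u.1 v.1)
  have s2 := h2 (Gam h z.1 v.1 v.1)
  have s3 := h3 (Gam h z.1 u.1 u.1)
  rw [num, g1, g3, ← k1, ← k2, nm_apply, nm_apply, ddG_nm hh.smooth hN.smooth hΛ,
    ddG_nm hh.smooth hN.smooth hΛ, ddG_nm hh.smooth hN.smooth hΛ, num,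
    ← G_Gam hh, ← G_Gam hh]
  simp only [hessN, ddN_eq hN.smooth, dN_eq dn, ee, fderiv_Λ hΛ] at s1 s2 s3 ⊢
  rw [D2_swap hΛ v u, Gam_symm hh v.1 u.1]
  simp only [hΛ0, cc, hΛ1, D0, r1, r2, map_add, map_sub, map_neg, map_smul, map_zero,
    _root_.add_apply, _root_.zero_apply,
    _root_.sub_apply, _root_.neg_apply, _root_.smul_apply, smul_eq_mul] at s1 s2 s3 ⊢
  have q1 := sdN u.1 v.2 (fderiv ℝ Λ z u v)
  have q2 := sdN v.1 u.2 (fderiv ℝ Λ z u v)
  have t1 := sN v.2 (fderiv ℝ Λ z v (Gam h z.1 u.1 u.1, 0))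
  have t2 := sN v.2 (fderiv ℝ Λ z u (Gam h z.1 u.1 v.1, 0))
  have t3 := sN u.2 (fderiv ℝ Λ z u (Gam h z.1 v.1 v.1, 0))
  have t4 := sN u.2 (fderiv ℝ Λ z v (Gam h z.1 u.1 v.1, 0))
  have t5 := sN u.2 (fderiv ℝ (fderiv ℝ Λ) z u v v)
  have t6 := sN v.2 (fderiv ℝ (fderiv ℝ Λ) z u u v)
  have t7 := sN u.2 (fderiv ℝ (fderiv ℝ Λ) z v v u)
  have t8 := sh (Gam h z.1 u.1 u.1) thv
  have t9 := sh (Gam h z.1 u.1 v.1) th
  rw [t1] at s3
  rw [t2, t4] at s1
  rw [t3] at s2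
  rw [q1, q2, t5, t6, t7, t8, t9]
  linear_combination 2 * s1 - s2 - s3

end Pool.Agent.Helper76.HP
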