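import Pool.Agent.Helper76.HP.Q6aE3

/-!
# The exact curvature formula for the Kaluza-Klein metric on `S² × S³`
-/

open Filter Metric Module Set
open scoped Topology ContDiff RealInnerProductSpace Manifold Quaternion

set_option maxSynthPendingDepth 3

namespace Pool.Agent.Helper76.HP
open Pool.Agent.Helper20.PC Pool.Agent.Helper20.HP

section
variable {κ ε T δ : ℝ} {x X : E3}

/-- the mixed covariant derivative in the radial direction vanishes -/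
lemma cN1_dir (hκ : |κ| ≤ 1/10) (hx : ‖x‖ = 1) (hX : ‖X‖ = 1) (hxX : ⟪x, X⟫ = 0)
    (hd : DifferentiableAt ℝ (NE κ ε T δ) x)
    (hcN : ∀ Y : E3, ‖Y‖ = 1 → ⟪x, Y⟫ = 0 → ∀ a b : E3,
      cN1 (NE κ ε T δ) (AE κ ε) x (jx1 κ x Y) (qimL a) (qimL b) = -4 * δ ^ 4 * S1 κ ε T x Y a b)
    (hcN' : ∀ p q : ℍ[ℝ], cN1 (NE κ ε T δ) (AE κ ε) x x p q = 0) (ξ a b : E3) :
    cN1 (NE κ ε T δ) (AE κ ε) x ξ (qimL a) (qimL b)
      = -4 * δ ^ 4 * (sg κ x)⁻¹ * (⟪X, ξ⟫ * S1 κ ε T x X a b + ⟪cr x X, ξ⟫ * S1 κ ε T x (cr x X) a b) := by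
  have hs := sg_pos hκ hx
  have e : ξ = ⟪x, ξ⟫ • x + ((sg κ x)⁻¹ * ⟪X, ξ⟫) • jx1 κ x X
      + ((sg κ x)⁻¹ * ⟪cr x X, ξ⟫) • jx1 κ x (cr x X) := by
    conv_lhs => rw [decomp hx hX hxX ξ]
    simp only [jx1, smul_smul]
    congr 2
    · field_simp
    · field_simp
  have hn := norm_cr hx hX hxX
  conv_lhs => rw [e]
  rw [cN1_add1 hd, cN1_add1 hd, cN1_smul1 hd, cN1_smul1 hd, cN1_smul1 hd, hcN' _ _, hcN X hX hxX,
    hcN _ hn (inner_self_cr x X)]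
  ring

lemma hE_comb (hκ : |κ| ≤ 1/10) (hx : ‖x‖ = 1) (hxX : ⟪x, X⟫ = 0)
    (H1 H2 : ℝ) (ξ : E3) :
    hE κ x (H1 • jx1 κ x X + H2 • jx1 κ x (cr x X)) ξ
      = (sg κ x)⁻¹ * (H1 * ⟪X, ξ⟫ + H2 * ⟪cr x X, ξ⟫) := by
  have hs := (sg_pos hκ hx).ne'
  rw [hE_unit hx]
  simp only [jx1, inner_add_left, inner_add_right, real_inner_smul_left, real_inner_smul_right, hxX,
    inner_self_cr]
  field_simp
  ring

lemma Om_comb (hκ : |κ| ≤ 1/10) (hx : ‖x‖ = 1) (hxX : ⟪x, X⟫ = 0)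
    (hOm : ∀ u v : E3, Om (AE κ ε) x u v
      = (1/2 * (sg κ (nn x) ^ 2)⁻¹ * ‖x‖⁻¹ ^ 3 * ⟪x, cr u v⟫) • qimL (om κ ε (nn x)))
    (p q : ℝ) (ξ : E3) :
    Om (AE κ ε) x (p • jx1 κ x X + q • jx1 κ x (cr x X)) ξ
      = (1/2 * (sg κ x)⁻¹ * (p * ⟪cr x X, ξ⟫ - q * ⟪X, ξ⟫)) • qimL (om κ ε x) := by
  have hs := (sg_pos hκ hx).ne'
  have e : cr x (p • jx1 κ x X + q • jx1 κ x (cr x X)) = (p * sg κ x) • cr x X - (q * sg κ x) • X := by
    have h1 := cr_cr_unit hx hxX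
    have h2 : cr x (p • jx1 κ x X + q • jx1 κ x (cr x X))
        = (p * sg κ x) • cr x X + (q * sg κ x) • cr x (cr x X) := by
      simp only [← crL_apply, jx1, map_add, map_smul, smul_smul]
    rw [h2, h1, smul_neg]
    abel
  rw [hOm, inner_cr, e, nn_unit hx, hx]
  congr 1
  simp only [inner_sub_left, real_inner_smul_left]
  field_simp

/-- the horizontal part of the difference tensor. -/
lemma pair_H (hκ : |κ| ≤ 1/10) (hδ : 0 < δ) (hx : ‖x‖ = 1) (hX : ‖X‖ = 1) (hxX : ⟪x, X⟫ = 0)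
    (hd : DifferentiableAt ℝ (NE κ ε T δ) x)
    (hcN : ∀ Y : E3, ‖Y‖ = 1 → ⟪x, Y⟫ = 0 → ∀ a b : E3,
      cN1 (NE κ ε T δ) (AE κ ε) x (jx1 κ x Y) (qimL a) (qimL b) = -4 * δ ^ 4 * S1 κ ε T x Y a b)
    (hcN' : ∀ p q : ℍ[ℝ], cN1 (NE κ ε T δ) (AE κ ε) x x p q = 0)
    (hOm : ∀ u v : E3, Om (AE κ ε) x u v
      = (1/2 * (sg κ (nn x) ^ 2)⁻¹ * ‖x‖⁻¹ ^ 3 * ⟪x, cr u v⟫) • qimL (om κ ε (nn x)))
    (p q p' q' s s' : ℝ) (U U' : E3) :
    IsKH (hE κ) (NE κ ε T δ) (AE κ ε) x (p • jx1 κ x X + q • jx1 κ x (cr x X)) ((s / (2 * δ)) • qimL U)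
      (p' • jx1 κ x X + q' • jx1 κ x (cr x X)) ((s' / (2 * δ)) • qimL U')
      (((1/2) * δ ^ 2 * (s * s') * S1 κ ε T x X U U'
          - (1/2) * δ * (s' * q * Mh κ ε T δ x U' (om κ ε x) + s * q' * Mh κ ε T δ x U (om κ ε x))) • jx1 κ x X
        + ((1/2) * δ ^ 2 * (s * s') * S1 κ ε T x (cr x X) U U'
          + (1/2) * δ * (s' * p * Mh κ ε T δ x U' (om κ ε x) + s * p' * Mh κ ε T δ x U (om κ ε x)))
            • jx1 κ x (cr x X)) := by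
  intro ξ
  have hs := (sg_pos hκ hx).ne'
  rw [hE_comb hκ hx hxX, Om_comb hκ hx hxX hOm, Om_comb hκ hx hxX hOm, cN1_smul2 hd, cN1_smul3 hd,
    cN1_dir hκ hx hX hxX hd hcN hcN']
  simp only [map_smul, _root_.smul_apply, NE_qim hx, smul_eq_mul, MhL_apply]
  field_simp
  ring

/-- the right hand side of the equation for the vertical part. -/
lemma rhs_V (hx : ‖x‖ = 1) (hX : ‖X‖ = 1) (hxX : ⟪x, X⟫ = 0) (hδ : 0 < δ)
    (hd : DifferentiableAt ℝ (NE κ ε T δ) x)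
    (hcN : ∀ Y : E3, ‖Y‖ = 1 → ⟪x, Y⟫ = 0 → ∀ a b : E3,
      cN1 (NE κ ε T δ) (AE κ ε) x (jx1 κ x Y) (qimL a) (qimL b) = -4 * δ ^ 4 * S1 κ ε T x Y a b)
    (p q p' q' s s' : ℝ) (U U' e : E3) :
    (1/2) * cN1 (NE κ ε T δ) (AE κ ε) x (p • jx1 κ x X + q • jx1 κ x (cr x X))
        ((s' / (2 * δ)) • qimL U') (qimL e)
      + (1/2) * cN1 (NE κ ε T δ) (AE κ ε) x (p' • jx1 κ x X + q' • jx1 κ x (cr x X))
        ((s / (2 * δ)) • qimL U) (qimL e)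
      + (1/2) * NE κ ε T δ x ((s' / (2 * δ)) • qimL U') (br ((s / (2 * δ)) • qimL U) (qimL e))
      + (1/2) * NE κ ε T δ x ((s / (2 * δ)) • qimL U) (br ((s' / (2 * δ)) • qimL U') (qimL e))
    = 2 * δ * (- (1/2) * (δ ^ 2 * (s' * (p * S1 κ ε T x X U' e + q * S1 κ ε T x (cr x X) U' e)
          + s * (p' * S1 κ ε T x X U e + q' * S1 κ ε T x (cr x X) U e))
        + δ * (s * s') * (Sb κ ε T x U' (cr U e) + Sb κ ε T x U (cr U' e)))) := by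
  have hn := norm_cr hx hX hxX
  rw [cN1_add1 hd, cN1_add1 hd, cN1_smul1 hd, cN1_smul1 hd, cN1_smul1 hd, cN1_smul1 hd,
    cN1_smul2 hd, cN1_smul2 hd, cN1_smul2 hd, cN1_smul2 hd, hcN X hX hxX, hcN X hX hxX,
    hcN _ hn (inner_self_cr x X), hcN _ hn (inner_self_cr x X), br_smul_left, br_smul_left, br_qim, br_qim]
  simp only [map_smul, _root_.smul_apply, NE_qim hx, smul_eq_mul, MhL_apply, Mh]
  have h3 := triple_anti U U' e
  field_simp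
  linear_combination (4 * s * s') * h3

/-- a positive definite form on `ℝ³` represents every linear functional. -/
lemma exists_rep (B : E3 →L[ℝ] E3 →L[ℝ] ℝ) (hB : ∀ a, a ≠ 0 → 0 < B a a) (f : E3 →ₗ[ℝ] ℝ) :
    ∃ t : E3, ∀ e, B t e = f e := by
  let L : E3 →ₗ[ℝ] (E3 →ₗ[ℝ] ℝ) :=
    { toFun := fun t => (B t).toLinearMap
      map_add' := fun a b => by ext e; simp
      map_smul' := fun r a => by ext e; simp }
  have hinj : Function.Injective L := by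
    rw [← LinearMap.ker_eq_bot, LinearMap.ker_eq_bot']
    intro t ht
    by_contra h0
    have h1 := hB t h0
    have h2 : L t t = 0 := by rw [ht]; rfl
    have h3 : L t t = B t t := rfl
    linarith
  have hsurj : Function.Surjective L :=
    (LinearMap.injective_iff_surjective_of_finrank_eq_finrank
      (by rw [Module.finrank_linearMap, Module.finrank_self, mul_one])).1 hinj
  obtain ⟨t, ht⟩ := hsurj f
  exact ⟨t, fun e => by
    have := congrArg (fun g : E3 →ₗ[ℝ] ℝ => g e) ht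
    exact this⟩

/-- the vertical part of the difference tensor. -/
lemma pair_V (hδ : 0 < δ) (hx : ‖x‖ = 1) (hX : ‖X‖ = 1) (hxX : ⟪x, X⟫ = 0)
    (hM : ∀ a : E3, a ≠ 0 → 0 < Mf κ ε T δ x a a)
    (hd : DifferentiableAt ℝ (NE κ ε T δ) x)
    (hcN : ∀ Y : E3, ‖Y‖ = 1 → ⟪x, Y⟫ = 0 → ∀ a b : E3,
      cN1 (NE κ ε T δ) (AE κ ε) x (jx1 κ x Y) (qimL a) (qimL b) = -4 * δ ^ 4 * S1 κ ε T x Y a b)
    (hcN0 : ∀ (ζ a : E3), cN1 (NE κ ε T δ) (AE κ ε) x ζ (qimL a) 1 = 0)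
    (p q p' q' s s' : ℝ) (U U' : E3) :
    ∃ t : E3, (∀ e, Mh κ ε T δ x t e
      = - (1/2) * (δ ^ 2 * (s' * (p * S1 κ ε T x X U' e + q * S1 κ ε T x (cr x X) U' e)
          + s * (p' * S1 κ ε T x X U e + q' * S1 κ ε T x (cr x X) U e))
        + δ * (s * s') * (Sb κ ε T x U' (cr U e) + Sb κ ε T x U (cr U' e)))) ∧
    IsKV (NE κ ε T δ) (AE κ ε) x (p • jx1 κ x X + q • jx1 κ x (cr x X)) ((s / (2 * δ)) • qimL U)
      (p' • jx1 κ x X + q' • jx1 κ x (cr x X)) ((s' / (2 * δ)) • qimL U') ((1 / (2 * δ)) • qimL t) := by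
  set ζ := p • jx1 κ x X + q • jx1 κ x (cr x X) with hζ
  set ζ' := p' • jx1 κ x X + q' • jx1 κ x (cr x X) with hζ'
  let g : ℍ[ℝ] →ₗ[ℝ] ℝ :=
    { toFun := fun ξ => (1/2) * cN1 (NE κ ε T δ) (AE κ ε) x ζ ((s' / (2 * δ)) • qimL U') ξ
      + (1/2) * cN1 (NE κ ε T δ) (AE κ ε) x ζ' ((s / (2 * δ)) • qimL U) ξ
      + (1/2) * NE κ ε T δ x ((s' / (2 * δ)) • qimL U') (br ((s / (2 * δ)) • qimL U) ξ)
      + (1/2) * NE κ ε T δ x ((s / (2 * δ)) • qimL U) (br ((s' / (2 * δ)) • qimL U') ξ)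
      map_add' := fun a b => by simp only [cN1_add3 hd, br_add_right, map_add]; ring
      map_smul' := fun r a => by
        simp only [cN1_smul3 hd, br_smul_right, map_smul, smul_eq_mul, RingHom.id_apply]; ring }
  have hMh : ∀ a : E3, a ≠ 0 → 0 < MhL κ ε T δ x a a := by
    intro a ha
    have := hM a ha
    rw [Mf_eq] at this
    exact (mul_pos_iff_of_pos_left (by positivity)).1 this
  obtain ⟨t, ht⟩ := exists_rep (MhL κ ε T δ x) hMh ((1 / (2 * δ)) • (g ∘ₗ qimL.toLinearMap))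
  have hg : ∀ e, g (qimL e) = 2 * δ * Mh κ ε T δ x t e := by
    intro e
    have h1 := ht e
    rw [MhL_apply] at h1
    have h2 : ((1 / (2 * δ)) • (g ∘ₗ qimL.toLinearMap)) e = (1 / (2 * δ)) * g (qimL e) := rfl
    rw [h1, h2]
    field_simp
  refine ⟨t, fun e => ?_, fun ξ => ?_⟩
  · have h1 := rhs_V hx hX hxX hδ hd hcN p q p' q' s s' U U' e
    have h2 := hg e
    have h3 : g (qimL e) = _ := h1
    rw [h2] at h3
    exact mul_left_cancel₀ (by positivity : (2 * δ) ≠ 0) h3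
  · have h1 : g ξ = 2 * δ * Mh κ ε T δ x t (vecL ξ) := by
      have e1 := quat_decomp ξ
      have h0 : g 1 = 0 := by
        have : g 1 = (1/2) * cN1 (NE κ ε T δ) (AE κ ε) x ζ ((s' / (2 * δ)) • qimL U') 1
          + (1/2) * cN1 (NE κ ε T δ) (AE κ ε) x ζ' ((s / (2 * δ)) • qimL U) 1
          + (1/2) * NE κ ε T δ x ((s' / (2 * δ)) • qimL U') (br ((s / (2 * δ)) • qimL U) 1)
          + (1/2) * NE κ ε T δ x ((s / (2 * δ)) • qimL U) (br ((s' / (2 * δ)) • qimL U') 1) := rfl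
        rw [this, cN1_smul2 hd, cN1_smul2 hd, hcN0, hcN0, br_one, br_one]
        simp
      conv_lhs => rw [e1]
      rw [map_add, map_smul, h0, hg]
      simp
    have h2 : g ξ = (1/2) * cN1 (NE κ ε T δ) (AE κ ε) x ζ ((s' / (2 * δ)) • qimL U') ξ
      + (1/2) * cN1 (NE κ ε T δ) (AE κ ε) x ζ' ((s / (2 * δ)) • qimL U) ξ
      + (1/2) * NE κ ε T δ x ((s' / (2 * δ)) • qimL U') (br ((s / (2 * δ)) • qimL U) ξ)
      + (1/2) * NE κ ε T δ x ((s / (2 * δ)) • qimL U) (br ((s' / (2 * δ)) • qimL U') ξ) := rfl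
    rw [← h2, h1]
    conv_lhs => rw [quat_decomp ξ]
    rw [map_smul, map_add, map_smul]
    simp only [_root_.smul_apply, smul_eq_mul, NE_one, NE_qim hx, MhL_apply]
    field_simp
    ring

/-- Q6a, from the needed facts. -/
theorem num3_formula_of (hκ : |κ| ≤ 1/10) (hδ : 0 < δ)
    (hM : ∀ a : E3, a ≠ 0 → 0 < Mf κ ε T δ x a a)
    (hx : ‖x‖ = 1) (hX : ‖X‖ = 1) (hxX : ⟪x, X⟫ = 0)
    -- P3b
    (hkk : ∀ (ζ ζ' : E3) (η η' : ℍ[ℝ]) (th thu thv : E3) (tv tvu tvv : ℍ[ℝ]),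
      IsKH (hE κ) (NE κ ε T δ) (AE κ ε) x ζ η ζ' η' th →
      IsKH (hE κ) (NE κ ε T δ) (AE κ ε) x ζ η ζ η thu →
      IsKH (hE κ) (NE κ ε T δ) (AE κ ε) x ζ' η' ζ' η' thv →
      IsKV (NE κ ε T δ) (AE κ ε) x ζ η ζ' η' tv →
      IsKV (NE κ ε T δ) (AE κ ε) x ζ η ζ η tvu →
      IsKV (NE κ ε T δ) (AE κ ε) x ζ' η' ζ' η' tvv →
      num (KK (hE κ) (NE κ ε T δ) (AE κ ε)) (x, 1) (ζ, η - AE κ ε x ζ) (ζ', η' - AE κ ε x ζ')
        = kkRHS (hE κ) (NE κ ε T δ) (AE κ ε) x ζ η ζ' η' th thu thv tv tvu tvv)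
    -- Q1a
    (hmet : MetAt (hE κ) x)
    -- Q1c
    (hnum : ∀ u v : E3, ⟪x, u⟫ = 0 → ⟪x, v⟫ = 0 →
      num (hE κ) x u v = (sg κ x ^ 4)⁻¹ * Kc κ x * (‖u‖ ^ 2 * ‖v‖ ^ 2 - ⟪u, v⟫ ^ 2))
    -- Q2b
    (hOm : ∀ u v : E3, Om (AE κ ε) x u v
      = (1/2 * (sg κ (nn x) ^ 2)⁻¹ * ‖x‖⁻¹ ^ 3 * ⟪x, cr u v⟫) • qimL (om κ ε (nn x)))
    -- Q3
    (hDOm : ∀ Y : E3, ‖Y‖ = 1 → ⟪x, Y⟫ = 0 →
      DOm (hE κ) (AE κ ε) x (jx1 κ x Y) (jx1 κ x Y) (sg κ x • cr x Y) = (1/2 : ℝ) • qimL (dom κ ε x Y))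
    -- Q5a
    (hform : FormAt (NE κ ε T δ) x)
    -- Q5c
    (hcN : ∀ Y : E3, ‖Y‖ = 1 → ⟪x, Y⟫ = 0 → ∀ a b : E3,
      cN1 (NE κ ε T δ) (AE κ ε) x (jx1 κ x Y) (qimL a) (qimL b) = -4 * δ ^ 4 * S1 κ ε T x Y a b ∧
      cN2 (hE κ) (NE κ ε T δ) (AE κ ε) x (jx1 κ x Y) (jx1 κ x Y) (qimL a) (qimL b)
        = -4 * δ ^ 4 * S2 κ ε T x Y a b)
    -- Q5d
    (hcN' : ∀ (ζ a : E3) (p q : ℍ[ℝ]),
      cN1 (NE κ ε T δ) (AE κ ε) x x p q = 0 ∧ cN1 (NE κ ε T δ) (AE κ ε) x ζ (qimL a) 1 = 0 ∧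
      AE κ ε x x = 0)
    (U V : E3) (ca sa cb sb : ℝ) :
    ∃ t tu tv : E3,
      (∀ e, Mh κ ε T δ x t e = - (1/2) * (δ ^ 2 * (ca * sb * S1 κ ε T x X V e + sa * cb * S1 κ ε T x (cr x X) U e)
        + δ * (sa * sb) * (Sb κ ε T x V (cr U e) + Sb κ ε T x U (cr V e)))) ∧
      (∀ e, Mh κ ε T δ x tu e = - (δ ^ 2 * (ca * sa) * S1 κ ε T x X U e + δ * sa ^ 2 * Sb κ ε T x U (cr U e))) ∧
      (∀ e, Mh κ ε T δ x tv e = - (δ ^ 2 * (cb * sb) * S1 κ ε T x (cr x X) V e + δ * sb ^ 2 * Sb κ ε T x V (cr V e))) ∧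
      num (KK (hE κ) (NE κ ε T δ) (AE κ ε)) (x, 1) (pv κ ε δ x X ca sa U) (pv κ ε δ x (cr x X) cb sb V)
        = F3 κ ε T δ x X U V ca sa cb sb + Mh κ ε T δ x t t - Mh κ ε T δ x tu tv := by
  have hd : DifferentiableAt ℝ (NE κ ε T δ) x :=
    hform.smooth.differentiableAt (by norm_num : (2 : WithTop ℕ∞) ≠ 0)
  have hN2 := hform.smooth
  have hn := norm_cr hx hX hxX
  have hxn := inner_self_cr x X
  have hs := (sg_pos hκ hx).ne'
  have h11 : ⟪x, x⟫ = 1 := by rw [real_inner_self_eq_norm_sq, hx]; norm_num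
  have h22 : ⟪X, X⟫ = 1 := by rw [real_inner_self_eq_norm_sq, hX]; norm_num
  have h33 : ⟪cr x X, cr x X⟫ = 1 := by rw [real_inner_self_eq_norm_sq, hn]; norm_num
  have h23 : ⟪X, cr x X⟫ = 0 := inner_self_cr' x X
  have h32 : ⟪cr x X, X⟫ = 0 := by rw [real_inner_comm]; exact h23
  have hcN1 : ∀ Y : E3, ‖Y‖ = 1 → ⟪x, Y⟫ = 0 → ∀ a b : E3,
      cN1 (NE κ ε T δ) (AE κ ε) x (jx1 κ x Y) (qimL a) (qimL b) = -4 * δ ^ 4 * S1 κ ε T x Y a b :=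
    fun Y h1 h2 a b => (hcN Y h1 h2 a b).1
  have hcN2 : ∀ Y : E3, ‖Y‖ = 1 → ⟪x, Y⟫ = 0 → ∀ a b : E3,
      cN2 (hE κ) (NE κ ε T δ) (AE κ ε) x (jx1 κ x Y) (jx1 κ x Y) (qimL a) (qimL b)
        = -4 * δ ^ 4 * S2 κ ε T x Y a b :=
    fun Y h1 h2 a b => (hcN Y h1 h2 a b).2
  have hr : ∀ p q : ℍ[ℝ], cN1 (NE κ ε T δ) (AE κ ε) x x p q = 0 := fun p q => (hcN' 0 0 p q).1
  have hr1 : ∀ ζ a : E3, cN1 (NE κ ε T δ) (AE κ ε) x ζ (qimL a) 1 = 0 := fun ζ a => (hcN' ζ a 0 0).2.1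
  -- the difference tensors
  have kh1 := pair_H hκ hδ hx hX hxX hd hcN1 hr hOm ca 0 0 cb sa sb U V
  have kh2 := pair_H hκ hδ hx hX hxX hd hcN1 hr hOm ca 0 ca 0 sa sa U U
  have kh3 := pair_H hκ hδ hx hX hxX hd hcN1 hr hOm 0 cb 0 cb sb sb V V
  obtain ⟨t, ht, kv1⟩ := pair_V hδ hx hX hxX hM hd hcN1 hr1 ca 0 0 cb sa sb U V
  obtain ⟨tu, htu, kv2⟩ := pair_V hδ hx hX hxX hM hd hcN1 hr1 ca 0 ca 0 sa sa U U
  obtain ⟨tv, htv, kv3⟩ := pair_V hδ hx hX hxX hM hd hcN1 hr1 0 cb 0 cb sb sb V V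
  simp only [zero_smul, add_zero, zero_add] at kh1 kh2 kh3 kv1 kv2 kv3
  refine ⟨t, tu, tv, fun e => by rw [ht e]; ring, fun e => by rw [htu e]; ring,
    fun e => by rw [htv e]; ring, ?_⟩
  have main := hkk _ _ _ _ _ _ _ _ _ _ kh1 kh2 kh3 kv1 kv2 kv3
  have epu : pv κ ε δ x X ca sa U = (ca • jx1 κ x X,
      (sa / (2 * δ)) • qimL U - AE κ ε x (ca • jx1 κ x X)) := rfl
  have epv : pv κ ε δ x (cr x X) cb sb V = (cb • jx1 κ x (cr x X),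
      (sb / (2 * δ)) • qimL V - AE κ ε x (cb • jx1 κ x (cr x X))) := rfl
  rw [epu, epv, main]
  -- the ingredients
  have i0 : num (hE κ) x (ca • jx1 κ x X) (cb • jx1 κ x (cr x X)) = Kc κ x * (ca * cb) ^ 2 := by
    rw [hnum _ _ (by simp [jx1, real_inner_smul_right, hxX]) (by simp [jx1, real_inner_smul_right, hxn])]
    simp only [jx1, norm_smul, real_inner_smul_left, real_inner_smul_right, h23, hX, hn, mul_one,
      Real.norm_eq_abs, mul_pow, sq_abs, mul_zero]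
    field_simp
    ring
  have i1 : Om (AE κ ε) x (ca • jx1 κ x X) (cb • jx1 κ x (cr x X)) = (ca * cb / 2) • qimL (om κ ε x) := by
    have := Om_comb (κ := κ) (ε := ε) hκ hx hxX hOm ca 0 (cb • jx1 κ x (cr x X))
    simp only [zero_smul, add_zero, zero_mul, sub_zero] at this
    rw [this]
    simp only [jx1, real_inner_smul_right, h33]
    congr 1
    field_simp
  have i2 : br ((sa / (2 * δ)) • qimL U) ((sb / (2 * δ)) • qimL V)
      = (sa * sb / (2 * δ ^ 2)) • qimL (cr U V) := by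
    rw [br_smul_left, br_smul_right, br_qim, smul_smul, smul_smul]
    congr 1
    field_simp
  have i2' : br ((sb / (2 * δ)) • qimL V) ((sa / (2 * δ)) • qimL U)
      = (sa * sb / (2 * δ ^ 2)) • qimL (cr V U) := by
    rw [br_smul_left, br_smul_right, br_qim, smul_smul, smul_smul]
    congr 1
    field_simp
  have i3 : br ((sa / (2 * δ)) • qimL U) ((sa * sb / (2 * δ ^ 2)) • qimL (cr U V))
      = (sa ^ 2 * sb / (2 * δ ^ 3)) • qimL (cr U (cr U V)) := by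
    rw [br_smul_left, br_smul_right, br_qim, smul_smul, smul_smul]
    congr 1
    field_simp
  have i3' : br ((sb / (2 * δ)) • qimL V) ((sa * sb / (2 * δ ^ 2)) • qimL (cr V U))
      = (sa * sb ^ 2 / (2 * δ ^ 3)) • qimL (cr V (cr V U)) := by
    rw [br_smul_left, br_smul_right, br_qim, smul_smul, smul_smul]
    congr 1
    field_simp
  have i4 : DOm (hE κ) (AE κ ε) x (ca • jx1 κ x X) (ca • jx1 κ x X) (cb • jx1 κ x (cr x X))
      = (ca ^ 2 * cb / 2) • qimL (dom κ ε x X) := by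
    rw [DOm_smul hmet]
    have := hDOm X hX hxX
    have e : jx1 κ x (cr x X) = sg κ x • cr x X := rfl
    rw [e, this, smul_smul]
    congr 1
    ring
  have i4' : DOm (hE κ) (AE κ ε) x (cb • jx1 κ x (cr x X)) (cb • jx1 κ x (cr x X)) (ca • jx1 κ x X)
      = (-(cb ^ 2 * ca / 2)) • qimL (dom κ ε x (cr x X)) := by
    have := hDOm _ hn hxn
    rw [cr_cr_unit hx hxX] at this
    have e : ca • jx1 κ x X = (-ca) • (sg κ x • (-X)) := by simp [jx1]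
    rw [e, DOm_smul hmet, this, smul_smul]
    congr 1
    ring
  have i5 : cN2 (hE κ) (NE κ ε T δ) (AE κ ε) x (jx1 κ x X) (jx1 κ x (cr x X)) (qimL U) (qimL V)
      = -4 * δ ^ 4 * S11 κ ε T x X U V := by
    have e : (√2)⁻¹ • (jx1 κ x X + jx1 κ x (cr x X)) = jx1 κ x ((√2)⁻¹ • (X + cr x X)) := by
      simp only [jx1, smul_add, smul_comm (sg κ x)]
    have hp := cN2_polar (A := AE κ ε) hmet hN2 ((√2)⁻¹) (jx1 κ x X) (jx1 κ x (cr x X)) (qimL U) (qimL V)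
    have hsq : ((√2)⁻¹ : ℝ) ^ 2 = 1/2 := by
      rw [inv_pow, Real.sq_sqrt (by norm_num)]; norm_num
    have hu : ‖(√2)⁻¹ • (X + cr x X)‖ = 1 := by
      have h5 : ‖(√2)⁻¹ • (X + cr x X)‖ ^ 2 = 1 := by
        rw [← real_inner_self_eq_norm_sq, real_inner_smul_left, real_inner_smul_right, ← mul_assoc,
          ← sq, hsq, inner_add_left, inner_add_right, inner_add_right, h22, h23, h32, h33]
        norm_num
      nlinarith [norm_nonneg ((√2)⁻¹ • (X + cr x X))]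
    have ho : ⟪x, (√2)⁻¹ • (X + cr x X)⟫ = 0 := by
      rw [real_inner_smul_right, inner_add_right, hxX, hxn]; simp
    rw [e, hcN2 _ hu ho, hcN2 X hX hxX, hcN2 _ hn hxn, hsq] at hp
    rw [S11]
    linear_combination -hp
  have i6 : cN2 (hE κ) (NE κ ε T δ) (AE κ ε) x (ca • jx1 κ x X) (ca • jx1 κ x X)
      ((sb / (2 * δ)) • qimL V) ((sb / (2 * δ)) • qimL V)
      = - (δ ^ 2 * (ca * sb) ^ 2 * S2 κ ε T x X V V) := by
    rw [cN2_hom hmet hN2, hcN2 X hX hxX]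
    field_simp
    ring
  have i7 : cN2 (hE κ) (NE κ ε T δ) (AE κ ε) x (cb • jx1 κ x (cr x X)) (cb • jx1 κ x (cr x X))
      ((sa / (2 * δ)) • qimL U) ((sa / (2 * δ)) • qimL U)
      = - (δ ^ 2 * (sa * cb) ^ 2 * S2 κ ε T x (cr x X) U U) := by
    rw [cN2_hom hmet hN2, hcN2 _ hn hxn]
    field_simp
    ring
  have i8 : cN2 (hE κ) (NE κ ε T δ) (AE κ ε) x (ca • jx1 κ x X) (cb • jx1 κ x (cr x X))
      ((sa / (2 * δ)) • qimL U) ((sb / (2 * δ)) • qimL V)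
      = - (δ ^ 2 * (ca * cb) * (sa * sb) * S11 κ ε T x X U V) := by
    rw [cN2_hom hmet hN2, i5]
    field_simp
    ring
  have hMsymm : ∀ a b, Mh κ ε T δ x a b = Mh κ ε T δ x b a := by
    intro a b
    simp only [Mh, real_inner_comm]
    simp only [Sb, SbG, dotG, HbG, FbG, PhG, smul_eq_mul]
    ring
  have j1 : ∀ H1 H2 K1 K2 : ℝ, hE κ x (H1 • jx1 κ x X + H2 • jx1 κ x (cr x X))
      (K1 • jx1 κ x X + K2 • jx1 κ x (cr x X)) = H1 * K1 + H2 * K2 := by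
    intro H1 H2 K1 K2
    rw [hE_comb hκ hx hxX]
    simp only [jx1, inner_add_right, real_inner_smul_right, h22, h23, h32, h33]
    field_simp
    ring
  have j2 : ∀ a b : E3, NE κ ε T δ x ((1 / (2 * δ)) • qimL a) ((1 / (2 * δ)) • qimL b)
      = Mh κ ε T δ x a b := by
    intro a b
    simp only [map_smul, _root_.smul_apply, NE_qim hx, smul_eq_mul, MhL_apply]
    field_simp
    ring
  have j3 : ∀ a b, NE κ ε T δ x (qimL a) (qimL b) = 4 * δ ^ 2 * Mh κ ε T δ x a b := by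
    intro a b
    rw [NE_qim hx, MhL_apply]
  rw [kkRHS, i0, i1, i2, i2', i3, i3', i4, i4', i6, i7, i8, j1, j1, j2, j2]
  simp only [cN1_add2 hd, cN1_smul2 hd, cN1_smul3 hd, cN1_smul1 hd, hcN1 X hX hxX, hcN1 _ hn hxn,
    map_add, map_smul, _root_.add_apply, _root_.smul_apply, smul_eq_mul, j3]
  rw [F3]
  rw [hMsymm (om κ ε x) (cr U V)]
  field_simp
  ring

end

end Pool.Agent.Helper76.HP
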