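import Pool.Agent.Helper76.HP.P2

/-!
# Multilinearity of the covariant derivatives
-/

open Filter Metric Module Set
open scoped Topology ContDiff RealInnerProductSpace Manifold

set_option maxSynthPendingDepth 3

namespace Pool.Agent.Helper76.HP
open Pool.Agent.Helper20.PC Pool.Agent.Helper20.HP

section
variable {B 𝔸 : Type*} [NormedAddCommGroup B] [NormedSpace ℝ B] [NormedDivisionRing 𝔸]
  [NormedAlgebra ℝ 𝔸]

omit [NormedAlgebra ℝ 𝔸] in
lemma br_add_right (a b c : 𝔸) : br a (b + c) = br a b + br a c := by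
  simp only [br, mul_add, add_mul]; abel
omit [NormedAlgebra ℝ 𝔸] in
lemma br_add_left (a b c : 𝔸) : br (a + b) c = br a c + br b c := by
  simp only [br, mul_add, add_mul]; abel
omit [NormedAlgebra ℝ 𝔸] in
lemma br_sub_left (a b c : 𝔸) : br (a - b) c = br a c - br b c := by
  simp only [br, mul_sub, sub_mul]; abel
lemma br_smul_right (r : ℝ) (a b : 𝔸) : br a (r • b) = r • br a b := by
  simp [br, smul_sub]
lemma br_smul_left (r : ℝ) (a b : 𝔸) : br (r • a) b = r • br a b := by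
  simp [br, smul_sub]
omit [NormedAlgebra ℝ 𝔸] in
lemma br_neg_right (a b : 𝔸) : br a (-b) = - br a b := by
  simp only [br, mul_neg, neg_mul]; abel
omit [NormedAlgebra ℝ 𝔸] in
lemma br_one (a : 𝔸) : br a 1 = 0 := by simp [br]

variable {h : B → B →L[ℝ] B →L[ℝ] ℝ} {N : B → 𝔸 →L[ℝ] 𝔸 →L[ℝ] ℝ} {A : B → B →L[ℝ] 𝔸} {x : B}

lemma cN1_eq (hN : DifferentiableAt ℝ N x) (ζ : B) (a b : 𝔸) :
    cN1 N A x ζ a b = fderiv ℝ N x ζ a b - N x (br (A x ζ) a) b - N x a (br (A x ζ) b) := by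
  rw [cN1, dN_eq hN]

lemma cN1_add1 (hN : DifferentiableAt ℝ N x) (ζ ζ' : B) (a b : 𝔸) :
    cN1 N A x (ζ + ζ') a b = cN1 N A x ζ a b + cN1 N A x ζ' a b := by
  simp only [cN1_eq hN, map_add, _root_.add_apply, br_add_left]; ring
lemma cN1_smul1 (hN : DifferentiableAt ℝ N x) (r : ℝ) (ζ : B) (a b : 𝔸) :
    cN1 N A x (r • ζ) a b = r * cN1 N A x ζ a b := by
  simp only [cN1_eq hN, map_smul, _root_.smul_apply, br_smul_left, smul_eq_mul]; ring
lemma cN1_add2 (hN : DifferentiableAt ℝ N x) (ζ : B) (a a' b : 𝔸) :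
    cN1 N A x ζ (a + a') b = cN1 N A x ζ a b + cN1 N A x ζ a' b := by
  simp only [cN1_eq hN, map_add, _root_.add_apply, br_add_right]; ring
lemma cN1_smul2 (hN : DifferentiableAt ℝ N x) (r : ℝ) (ζ : B) (a b : 𝔸) :
    cN1 N A x ζ (r • a) b = r * cN1 N A x ζ a b := by
  simp only [cN1_eq hN, map_smul, _root_.smul_apply, br_smul_right, smul_eq_mul]; ring
lemma cN1_add3 (hN : DifferentiableAt ℝ N x) (ζ : B) (a b b' : 𝔸) :
    cN1 N A x ζ a (b + b') = cN1 N A x ζ a b + cN1 N A x ζ a b' := by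
  simp only [cN1_eq hN, map_add, br_add_right]; ring
lemma cN1_smul3 (hN : DifferentiableAt ℝ N x) (r : ℝ) (ζ : B) (a b : 𝔸) :
    cN1 N A x ζ a (r • b) = r * cN1 N A x ζ a b := by
  simp only [cN1_eq hN, map_smul, br_smul_right, smul_eq_mul]; ring

lemma Om_smul (r s : ℝ) (ζ ζ' : B) : Om A x (r • ζ) (s • ζ') = (r * s) • Om A x ζ ζ' := by
  simp only [Om, map_smul, _root_.smul_apply, br_smul_left, br_smul_right, smul_add, smul_sub,
    smul_smul, mul_comm s r]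

end

section
variable {F : Type*} [NormedAddCommGroup F] [NormedSpace ℝ F] [FiniteDimensional ℝ F]
  {h : F → F →L[ℝ] F →L[ℝ] ℝ} {x : F}

lemma dG_eq' (hh : MetAt h x) (t u v : F) : dG h x t u v = fderiv ℝ h x t u v := by
  have hd := hh.smooth.differentiableAt (by norm_num : (2 : WithTop ℕ∞) ≠ 0)
  have h1 := ((hd.hasFDerivAt.clm_apply (hasFDerivAt_const u x)).clm_apply
    (hasFDerivAt_const v x)).fderiv
  rw [dG, h1]
  simp

lemma Gam_add_left (hh : MetAt h x) (u u' v : F) :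
    Gam h x (u + u') v = Gam h x u v + Gam h x u' v := by
  refine Gam_unique hh (fun w => ?_)
  rw [map_add, _root_.add_apply, G_Gam hh, G_Gam hh, chr_apply hh.smooth, chr_apply hh.smooth,
    chr_apply hh.smooth]
  simp only [dG_eq' hh, map_add, _root_.add_apply]
  ring

lemma Gam_smul_left (hh : MetAt h x) (r : ℝ) (u v : F) :
    Gam h x (r • u) v = r • Gam h x u v := by
  refine Gam_unique hh (fun w => ?_)
  rw [map_smul, _root_.smul_apply, G_Gam hh, chr_apply hh.smooth, chr_apply hh.smooth]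
  simp only [dG_eq' hh, map_smul, _root_.smul_apply, smul_eq_mul]
  ring

lemma Gam_smul_right (hh : MetAt h x) (r : ℝ) (u v : F) :
    Gam h x u (r • v) = r • Gam h x u v := by
  rw [Gam_symm hh, Gam_smul_left hh, Gam_symm hh]

lemma Gam_add_right (hh : MetAt h x) (u v v' : F) :
    Gam h x u (v + v') = Gam h x u v + Gam h x u v' := by
  rw [Gam_symm hh, Gam_add_left hh, Gam_symm hh, Gam_symm hh v']

variable {𝔸 : Type*} [NormedDivisionRing 𝔸] [NormedAlgebra ℝ 𝔸]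
  {N : F → 𝔸 →L[ℝ] 𝔸 →L[ℝ] ℝ} {A : F → F →L[ℝ] 𝔸}

lemma Om_smul_left (r : ℝ) (ζ ζ' : F) : Om A x (r • ζ) ζ' = r • Om A x ζ ζ' := by
  have := Om_smul (A := A) (x := x) r 1 ζ ζ'
  simpa using this

lemma Om_smul_right (r : ℝ) (ζ ζ' : F) : Om A x ζ (r • ζ') = r • Om A x ζ ζ' := by
  have := Om_smul (A := A) (x := x) 1 r ζ ζ'
  simpa using this

lemma DOm_smul (hh : MetAt h x) (r s t : ℝ) (ξ ζ ζ' : F) :
    DOm h A x (r • ξ) (s • ζ) (t • ζ') = (r * s * t) • DOm h A x ξ ζ ζ' := by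
  have e : fderiv ℝ (fun x' => Om A x' (s • ζ) (t • ζ')) x
      = (s * t) • fderiv ℝ (fun x' => Om A x' ζ ζ') x := by
    have e1 : (fun x' => Om A x' (s • ζ) (t • ζ')) = (s * t) • (fun x' => Om A x' ζ ζ') := by
      funext x'
      rw [Om_smul]
      rfl
    rw [e1, fderiv_const_smul_field]
    rfl
  rw [DOm, DOm, e]
  simp only [Gam_smul_left hh, Gam_smul_right hh, Om_smul_left, Om_smul_right, map_smul,
    _root_.smul_apply, br_smul_left, br_smul_right]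
  module

lemma s2_symm (ζ ζ' : F) (a : 𝔸) : s2 A x ζ ζ' a = s2 A x ζ' ζ a := by
  simp only [s2]
  rw [add_comm (br (A x ζ) _), add_comm (fderiv ℝ A x ζ ζ')]

lemma s2_add (ζ ζ₂ ζ' : F) (a : 𝔸) : s2 A x (ζ + ζ₂) ζ' a = s2 A x ζ ζ' a + s2 A x ζ₂ ζ' a := by
  simp only [s2, map_add, _root_.add_apply, br_add_left, br_add_right, smul_add]
  abel

lemma s2_smul (r : ℝ) (ζ ζ' : F) (a : 𝔸) : s2 A x (r • ζ) ζ' a = r • s2 A x ζ ζ' a := by
  simp only [s2, map_smul, _root_.smul_apply, br_smul_left, br_smul_right, br_add_left, smul_add,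
    smul_sub, smul_comm r]

lemma s2_smul_a (r : ℝ) (ζ ζ' : F) (a : 𝔸) : s2 A x ζ ζ' (r • a) = r • s2 A x ζ ζ' a := by
  simp only [s2, br_smul_right, smul_add, smul_sub, smul_comm r]

lemma ddN_symm (hN : ContDiffAt ℝ 2 N x) (ζ ζ' : F) (a b : 𝔸) :
    ddN N x ζ ζ' a b = ddN N x ζ' ζ a b := by
  rw [ddN_eq hN, ddN_eq hN, (hN.isSymmSndFDerivAt (by simp)) ζ ζ']

lemma cN2_symm (hh : MetAt h x) (hN : ContDiffAt ℝ 2 N x) (ζ ζ' : F) (a b : 𝔸) :
    cN2 h N A x ζ ζ' a b = cN2 h N A x ζ' ζ a b := by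
  simp only [cN2]
  rw [ddN_symm hN, s2_symm ζ ζ' a, s2_symm ζ ζ' b, Gam_symm hh]
  ring

lemma cN2_add (hh : MetAt h x) (hN : ContDiffAt ℝ 2 N x) (ζ ζ₂ ζ' : F) (a b : 𝔸) :
    cN2 h N A x (ζ + ζ₂) ζ' a b = cN2 h N A x ζ ζ' a b + cN2 h N A x ζ₂ ζ' a b := by
  have hd := hN.differentiableAt (by norm_num : (2 : WithTop ℕ∞) ≠ 0)
  simp only [cN2, ddN_eq hN, dN_eq hd, s2_add, Gam_add_left hh, cN1_add1 hd, map_add,
    _root_.add_apply, br_add_left]
  ring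

lemma cN2_smul (hh : MetAt h x) (hN : ContDiffAt ℝ 2 N x) (r : ℝ) (ζ ζ' : F) (a b : 𝔸) :
    cN2 h N A x (r • ζ) ζ' a b = r * cN2 h N A x ζ ζ' a b := by
  have hd := hN.differentiableAt (by norm_num : (2 : WithTop ℕ∞) ≠ 0)
  simp only [cN2, ddN_eq hN, dN_eq hd, s2_smul, Gam_smul_left hh, cN1_smul1 hd, map_smul,
    _root_.smul_apply, br_smul_left, smul_eq_mul]
  ring

lemma cN2_smul_a (hh : MetAt h x) (hN : ContDiffAt ℝ 2 N x) (r : ℝ) (ζ ζ' : F) (a b : 𝔸) :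
    cN2 h N A x ζ ζ' (r • a) b = r * cN2 h N A x ζ ζ' a b := by
  have hd := hN.differentiableAt (by norm_num : (2 : WithTop ℕ∞) ≠ 0)
  simp only [cN2, ddN_eq hN, dN_eq hd, s2_smul_a, cN1_smul2 hd, map_smul,
    _root_.smul_apply, br_smul_right, smul_eq_mul]
  ring

lemma cN2_smul_b (hh : MetAt h x) (hN : ContDiffAt ℝ 2 N x) (r : ℝ) (ζ ζ' : F) (a b : 𝔸) :
    cN2 h N A x ζ ζ' a (r • b) = r * cN2 h N A x ζ ζ' a b := by
  have hd := hN.differentiableAt (by norm_num : (2 : WithTop ℕ∞) ≠ 0)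
  simp only [cN2, ddN_eq hN, dN_eq hd, s2_smul_a, cN1_smul3 hd, map_smul,
    br_smul_right, smul_eq_mul]
  ring

/-- homogeneity of `cN2`. -/
lemma cN2_hom (hh : MetAt h x) (hN : ContDiffAt ℝ 2 N x) (r s p q : ℝ) (ζ ζ' : F) (a b : 𝔸) :
    cN2 h N A x (r • ζ) (s • ζ') (p • a) (q • b) = r * s * p * q * cN2 h N A x ζ ζ' a b := by
  rw [cN2_smul hh hN, cN2_symm hh hN, cN2_smul hh hN, cN2_symm hh hN, cN2_smul_a hh hN,
    cN2_smul_b hh hN]
  ring

/-- polarisation of `cN2`. -/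
lemma cN2_polar (hh : MetAt h x) (hN : ContDiffAt ℝ 2 N x) (r : ℝ) (ζ ζ' : F) (a b : 𝔸) :
    cN2 h N A x (r • (ζ + ζ')) (r • (ζ + ζ')) a b
      = r ^ 2 * (cN2 h N A x ζ ζ a b + cN2 h N A x ζ' ζ' a b + 2 * cN2 h N A x ζ ζ' a b) := by
  rw [cN2_smul hh hN, cN2_symm hh hN, cN2_smul hh hN, cN2_add hh hN, cN2_symm hh hN ζ (ζ + ζ'),
    cN2_symm hh hN ζ' (ζ + ζ'), cN2_add hh hN, cN2_add hh hN, cN2_symm hh hN ζ' ζ]
  ring

end

end Pool.Agent.Helper76.HP
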