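import Pool.Agent.Helper76.HP.Q6aLin
import Pool.Agent.Helper20.HP.Data2

/-!
# Vectors and imaginary quaternions
-/

open Filter Metric Module Set
open scoped Topology ContDiff RealInnerProductSpace Manifold Quaternion

set_option maxSynthPendingDepth 3

namespace Pool.Agent.Helper76.HP
open Pool.Agent.Helper20.PC Pool.Agent.Helper20.HP

lemma inner_e3 (a b : E3) : ⟪a, b⟫ = a 0 * b 0 + a 1 * b 1 + a 2 * b 2 := by
  simp [PiLp.inner_apply, Fin.sum_univ_three]; ring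

lemma cr0 (a b : E3) : cr a b 0 = a 1 * b 2 - a 2 * b 1 := rfl
lemma cr1 (a b : E3) : cr a b 1 = a 2 * b 0 - a 0 * b 2 := rfl
lemma cr2 (a b : E3) : cr a b 2 = a 0 * b 1 - a 1 * b 0 := rfl

lemma inner_cr (x y z : E3) : ⟪x, cr y z⟫ = ⟪cr x y, z⟫ := by
  simp only [inner_e3, cr0, cr1, cr2]; ring

lemma inner_cr_cr (x y z : E3) : ⟪x, cr (cr x y) z⟫ = ⟪x, y⟫ * ⟪x, z⟫ - ⟪x, x⟫ * ⟪y, z⟫ := by
  simp only [inner_e3, cr0, cr1, cr2]; ring

lemma inner_self_cr (x y : E3) : ⟪x, cr x y⟫ = 0 := by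
  simp only [inner_e3, cr0, cr1, cr2]; ring

lemma inner_self_cr' (x y : E3) : ⟪y, cr x y⟫ = 0 := by
  simp only [inner_e3, cr0, cr1, cr2]; ring

lemma inner_cr_self (x y : E3) : ⟪cr x y, cr x y⟫ = ⟪x, x⟫ * ⟪y, y⟫ - ⟪x, y⟫ ^ 2 := by
  simp only [inner_e3, cr0, cr1, cr2]; ring

lemma cr_anti (a b : E3) : cr b a = - cr a b := by
  ext i; fin_cases i <;> simp [cr] <;> ring

lemma cr_cr_self (x y : E3) : cr x (cr x y) = ⟪x, y⟫ • x - ⟪x, x⟫ • y := by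
  rw [inner_e3 x y, inner_e3 x x]
  ext i
  fin_cases i <;> simp [cr] <;> ring

/-- triple product. -/
lemma triple_anti (u v e : E3) : ⟪v, cr u e⟫ + ⟪u, cr v e⟫ = 0 := by
  simp only [inner_e3, cr0, cr1, cr2]; ring

section
variable {x X : E3}

lemma norm_cr (hx : ‖x‖ = 1) (hX : ‖X‖ = 1) (hxX : ⟪x, X⟫ = 0) : ‖cr x X‖ = 1 := by
  have h1 : ‖cr x X‖ ^ 2 = 1 := by
    rw [← real_inner_self_eq_norm_sq, inner_cr_self, hxX, real_inner_self_eq_norm_sq,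
      real_inner_self_eq_norm_sq, hx, hX]
    norm_num
  nlinarith [norm_nonneg (cr x X)]

lemma cr_cr_unit (hx : ‖x‖ = 1) (hxX : ⟪x, X⟫ = 0) : cr x (cr x X) = - X := by
  rw [cr_cr_self, hxX, real_inner_self_eq_norm_sq, hx]
  simp

lemma decomp (hx : ‖x‖ = 1) (hX : ‖X‖ = 1) (hxX : ⟪x, X⟫ = 0) (ξ : E3) :
    ξ = ⟪x, ξ⟫ • x + ⟪X, ξ⟫ • X + ⟪cr x X, ξ⟫ • cr x X := by
  have key : ⟪cr x X, ξ⟫ • cr x X - ⟪cr x X, cr x X⟫ • ξ
      = ⟪x, ξ⟫ • (⟪x, X⟫ • X - ⟪X, X⟫ • x) - ⟪X, ξ⟫ • (⟪x, x⟫ • X - ⟪x, X⟫ • x) := by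
    simp only [inner_e3, cr0, cr1, cr2]
    ext i
    fin_cases i <;> simp [cr] <;> ring
  have h1 : ⟪x, x⟫ = 1 := by rw [real_inner_self_eq_norm_sq, hx]; norm_num
  have h2 : ⟪X, X⟫ = 1 := by rw [real_inner_self_eq_norm_sq, hX]; norm_num
  rw [inner_cr_self, h1, h2, hxX] at key
  simp only [zero_smul, one_smul, zero_sub, sub_zero, mul_one, ne_eq, OfNat.ofNat_ne_zero,
    not_false_eq_true, zero_pow, smul_neg] at key
  have h3 : ξ = ⟪cr x X, ξ⟫ • cr x X - (⟪cr x X, ξ⟫ • cr x X - ξ) := by abel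
  rw [key] at h3
  calc ξ = ⟪cr x X, ξ⟫ • cr x X - (-(⟪x, ξ⟫ • x) - ⟪X, ξ⟫ • X) := h3
    _ = _ := by abel

lemma sg_pos {κ : ℝ} (hκ : |κ| ≤ 1/10) (hx : ‖x‖ = 1) : 0 < sg κ x := by
  have h1 : ⟪x, x⟫ = 1 := by rw [real_inner_self_eq_norm_sq, hx]; norm_num
  rw [inner_e3] at h1
  have e : Hb x x = 2 * (x 0 * (x 1 + x 2)) := by simp only [Hb, HbG]; ring
  have h2 : |Hb x x| ≤ 2 := by
    rw [e, abs_le]
    constructor <;> nlinarith [sq_nonneg (x 0 + (x 1 + x 2)), sq_nonneg (x 0 - (x 1 + x 2)),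
      sq_nonneg (x 1 - x 2), sq_nonneg (x 0)]
  have h3 : |κ * Hb x x| ≤ 1 / 10 * 2 := by
    rw [abs_mul]; exact mul_le_mul hκ h2 (abs_nonneg _) (by norm_num)
  have h4 := (abs_le.1 h3).2
  rw [sg]
  linarith

end

/-! ### quaternions -/

lemma br_qim (a b : E3) : br (qimL a) (qimL b) = (2 : ℝ) • qimL (cr a b) := by
  rw [br, qimL_apply, qimL_apply, qimL_apply]
  ext <;> simp [cr] <;> ring

lemma quat_decomp (ξ : ℍ[ℝ]) : ξ = ξ.re • (1 : ℍ[ℝ]) + qimL (vecL ξ) := by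
  rw [qimL_apply, vecL_apply]
  ext <;> simp

lemma vec_qim (a : E3) : vecL (qimL a) = a := by
  rw [vecL_apply, qimL_apply]
  ext i; fin_cases i <;> rfl

/-- the form `M̂` as a continuous bilinear form. -/
noncomputable def MhL (κ ε T δ : ℝ) (x : E3) : E3 →L[ℝ] E3 →L[ℝ] ℝ := inL - (δ ^ 2) • SbL κ ε T x

lemma MhL_apply (κ ε T δ : ℝ) (x a b : E3) : MhL κ ε T δ x a b = Mh κ ε T δ x a b := by
  simp [MhL, Mh, inL_apply]

lemma nn_unit {x : E3} (hx : ‖x‖ = 1) : nn x = x := by simp [nn, hx]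

lemma Mf_eq (κ ε T δ : ℝ) (x a b : E3) : Mf κ ε T δ x a b = δ ^ 2 * MhL κ ε T δ x a b := by
  simp [Mf, MhL, inL_apply]; ring

lemma NE_qim {κ ε T δ : ℝ} {x : E3} (hx : ‖x‖ = 1) (a b : E3) :
    NE κ ε T δ x (qimL a) (qimL b) = 4 * δ ^ 2 * MhL κ ε T δ x a b := by
  have h1 : reL (qimL a) = 0 := by rw [reL_apply, qimL_apply]
  simp only [NE, nn_unit hx, _root_.add_apply, _root_.smul_apply,
    ContinuousLinearMap.smulRight_apply, ContinuousLinearMap.bilinearComp_apply, vec_qim, h1,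
    Mf_eq, smul_eq_mul]
  simp; ring

lemma NE_one {κ ε T δ : ℝ} {x : E3} (a : E3) : NE κ ε T δ x (qimL a) 1 = 0 := by
  have h1 : reL (qimL a) = 0 := by rw [reL_apply, qimL_apply]
  have h2 : vecL 1 = 0 := by
    rw [vecL_apply]; ext i; fin_cases i <;> simp
  simp only [NE, _root_.add_apply, _root_.smul_apply,
    ContinuousLinearMap.smulRight_apply, ContinuousLinearMap.bilinearComp_apply, h1, h2]
  simp

lemma hE_unit {κ : ℝ} {x : E3} (hx : ‖x‖ = 1) (u v : E3) :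
    hE κ x u v = ⟪x, u⟫ * ⟪x, v⟫ + (sg κ x ^ 2)⁻¹ * (⟪u, v⟫ - ⟪x, u⟫ * ⟪x, v⟫) := by
  have h1 : ∀ w : E3, dl x w = ⟪x, w⟫ := by intro w; simp [dl, hx]
  have h2 : ∀ w : E3, dn x w = w - ⟪x, w⟫ • x := by intro w; simp [dn, hx, h1]
  have h3 : ⟪x, x⟫ = 1 := by rw [real_inner_self_eq_norm_sq, hx]; norm_num
  simp only [hE, nn_unit hx, _root_.add_apply,
    ContinuousLinearMap.smulRight_apply, ContinuousLinearMap.bilinearComp_apply, h1, h2, hhat,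
    _root_.smul_apply, inL_apply, smul_eq_mul, inner_sub_left, inner_sub_right,
    real_inner_smul_left, real_inner_smul_right, h3]
  rw [real_inner_comm x u]
  ring

end Pool.Agent.Helper76.HP
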